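import Pool.Agent.UQC.Statement
import Pool.Agent.UQC.Main

/-!
MP_7936f4_al.  Every discrete subgroup of PSp(n,1) (in particular every cocompact lattice, a hyperbolic
group with property (T) for n >= 2) acts uniformly quasiconformally, faithfully and discretely on a sphere.

All definitions used in the statement are in Pool/Agent/UQC/Statement.lean, except Jm (the matrix
diag(1,...,1,-1)) and MetricQC, which are in Pool/Agent/UQC/SpDef.lean.
-/

namespace Pool.Agent.Retired.MP_7936f4_al.QuaternionicHyperbolic

open Pool.UQC

theorem result (n : ℕ) (hn : 1 ≤ n) :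
    ∃ (N : ℕ) (H : ℝ) (ρ : Act n N),
      2 ≤ N ∧ ContAct ρ ∧ UnifQC ρ H ∧ KerPM ρ ∧ DiscAct ρ :=
  main_result n hn

end Pool.Agent.Retired.MP_7936f4_al.QuaternionicHyperbolic
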